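import Pool.Agent.U946.AF.Sus

set_option autoImplicit false

/-! Divergent averages of commuting maps give divergent continuous averages of commuting flows. -/

namespace Pool.Agent.U946.AF

open MeasureTheory Filter Finset
open Pool.Agent.Y957.MC (IsFlow)
open Pool.Agent.U587.ET (lam sh ct fract_sh GNull)
open scoped Topology

universe u

variable {X : Type u} [MeasurableSpace X] {μ : Measure X} [IsProbabilityMeasure μ] {m M : ℕ}

/-- the product along the orbits of the maps -/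
def cub (T : Fin m → X ≃ᵐ X) (f : Fin m → X → ℂ) (x : X) (n : ℤ) : ℂ :=
  ∏ j, f j ((((T j).toEquiv : Equiv.Perm X) ^ n) x)

/-- the window in the base -/
noncomputable def wd (s : ℝ) : ℂ := if Int.fract s ∈ Set.Ico (9 / 16 : ℝ) (10 / 16) then 1 else 0

lemma wd_meas : Measurable wd := by
  unfold wd
  exact Measurable.ite (measurable_fract measurableSet_Ico) measurable_const measurable_const

/-- the functions: the first one has a window -/
noncomputable def Fn (f : Fin (M + 1) → X → ℂ) (j : Fin (M + 1)) (p : (Fin (M + 1) → ℝ) × X) : ℂ :=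
  (if j = 0 then wd (p.1 0) else 1) * f j p.2

lemma Fn_meas {f : Fin (M + 1) → X → ℂ} (hf : ∀ j, Measurable (f j)) (j : Fin (M + 1)) : Measurable (Fn f j) := by
  unfold Fn
  refine Measurable.mul ?_ ((hf j).comp measurable_snd)
  by_cases hj : j = 0
  · simp only [hj, if_true]
    exact wd_meas.comp ((measurable_pi_apply 0).comp measurable_fst)
  · simp only [hj, if_false]
    exact measurable_const

omit [MeasurableSpace X] in
lemma Fn_bd {f : Fin (M + 1) → X → ℂ} {C : ℝ} (hC : ∀ j x, ‖f j x‖ ≤ C) (j : Fin (M + 1))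
    (p : (Fin (M + 1) → ℝ) × X) : ‖Fn f j p‖ ≤ C := by
  unfold Fn
  rw [norm_mul]
  have h1 : ‖(if j = 0 then wd (p.1 0) else 1 : ℂ)‖ ≤ 1 := by
    split_ifs
    · unfold wd
      split_ifs <;> simp
    · simp
  calc _ ≤ 1 * ‖f j p.2‖ := mul_le_mul_of_nonneg_right h1 (norm_nonneg _)
    _ ≤ C := by rw [one_mul]; exact hC j _

/-- the continuous product -/
noncomputable def phi (T : Fin (M + 1) → X ≃ᵐ X) (f : Fin (M + 1) → X → ℂ) (p : (Fin (M + 1) → ℝ) × X) (v : ℝ) :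
    ℂ := ∏ j, Fn f j (ms T j v p)

lemma phi_def (T : Fin (M + 1) → X ≃ᵐ X) (f : Fin (M + 1) → X → ℂ) (y : Fin (M + 1) → ℝ) (x : X) (v : ℝ) :
    phi T f (y, x) v = wd (sh v (y 0)) * ∏ j, f j ((((T j).toEquiv : Equiv.Perm X) ^ ct v (y j)) x) := by
  unfold phi Fn
  rw [prod_mul_distrib, prod_ite_eq' univ (0 : Fin (M + 1)) (fun j => wd ((ms T j v (y, x)).1 0)),
    if_pos (mem_univ _)]
  congr 1

lemma phi_eq (T : Fin (M + 1) → X ≃ᵐ X) (f : Fin (M + 1) → X → ℂ) {y : Fin (M + 1) → ℝ}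
    (hy : ∀ j, y j ∈ Set.Ico (1 / 2 : ℝ) (9 / 16)) (x : X) (n : ℤ) {v : ℝ}
    (hv : v ∈ Set.Ico (n : ℝ) (n + 1)) : phi T f (y, x) v =
      (Set.Ico ((n : ℝ) + 9 / 16 - y 0) (n + 10 / 16 - y 0)).indicator (fun _ => cub T f x n) v := by
  have hs := hy 0
  rw [phi_def]
  by_cases hI : v ∈ Set.Ico ((n : ℝ) + 9 / 16 - y 0) (n + 10 / 16 - y 0)
  · rw [Set.indicator_of_mem hI]
    have hfl : ∀ j, ⌊y j + v⌋ = n := by
      intro j
      have hj := hy j
      rw [Int.floor_eq_iff]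
      constructor <;> linarith [hI.1, hI.2, hj.1, hj.2, hs.1, hs.2]
    have hct : ∀ j, ct v (y j) = n := by
      intro j
      have hj := hy j
      have h0 : ⌊y j⌋ = 0 := Int.floor_eq_zero_iff.2 ⟨by linarith [hj.1], by linarith [hj.2]⟩
      unfold ct
      rw [hfl j, h0, sub_zero]
    have hw : wd (sh v (y 0)) = 1 := by
      unfold wd
      rw [fract_sh, if_pos]
      unfold Int.fract
      rw [hfl 0]
      constructor <;> linarith [hI.1, hI.2]
    rw [hw, one_mul]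
    unfold cub
    exact prod_congr rfl fun j _ => by rw [hct j]
  · rw [Set.indicator_of_notMem hI]
    have hw : wd (sh v (y 0)) = 0 := by
      unfold wd
      rw [fract_sh, if_neg]
      intro hfr
      apply hI
      have h1 : y 0 + v = ⌊y 0 + v⌋ + Int.fract (y 0 + v) := (Int.floor_add_fract _).symm
      have h2 : ((⌊y 0 + v⌋ : ℤ) : ℝ) < n + 1 := by linarith [hfr.1, hv.2, hs.2]
      have h3 : (n : ℝ) - 1 < ((⌊y 0 + v⌋ : ℤ) : ℝ) := by linarith [hfr.2, hv.1, hs.1]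
      have h4 : ⌊y 0 + v⌋ = n := by
        have h5 : ⌊y 0 + v⌋ < n + 1 := by exact_mod_cast h2
        have h6 : n - 1 < ⌊y 0 + v⌋ := by exact_mod_cast h3
        omega
      rw [h4] at h1
      constructor <;> linarith [hfr.1, hfr.2]
    rw [hw, zero_mul]

lemma phi_meas {T : Fin (M + 1) → X ≃ᵐ X} (hT : ∀ j, MeasurePreserving (T j) μ μ) {f : Fin (M + 1) → X → ℂ}
    (hf : ∀ j, Measurable (f j)) (p : (Fin (M + 1) → ℝ) × X) : Measurable (phi T f p) := by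
  unfold phi
  refine Finset.measurable_prod _ fun j _ => (Fn_meas hf j).comp ?_
  exact (ms_flow hT j).meas.comp (measurable_id.prodMk measurable_const)

lemma prod_bd {C : ℝ} {z : Fin (M + 1) → ℂ} (hz : ∀ j, ‖z j‖ ≤ C) : ‖∏ j, z j‖ ≤ C ^ (M + 1) := by
  rw [norm_prod]
  calc ∏ j, ‖z j‖ ≤ ∏ _j : Fin (M + 1), C := prod_le_prod (fun j _ => norm_nonneg _) fun j _ => hz j
    _ = C ^ (M + 1) := by rw [prod_const, card_univ, Fintype.card_fin]

lemma phi_ii {T : Fin (M + 1) → X ≃ᵐ X} (hT : ∀ j, MeasurePreserving (T j) μ μ) {f : Fin (M + 1) → X → ℂ}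
    (hf : ∀ j, Measurable (f j)) {C : ℝ} (hC : ∀ j x, ‖f j x‖ ≤ C) (p : (Fin (M + 1) → ℝ) × X) (a b : ℝ) :
    IntervalIntegrable (phi T f p) volume a b := by
  rw [intervalIntegrable_iff]
  exact Measure.integrableOn_of_bounded (M := C ^ (M + 1)) (by simp) (phi_meas hT hf p).aestronglyMeasurable
    (ae_of_all _ fun r => prod_bd fun j => Fn_bd hC j _)

lemma phi_piece (T : Fin (M + 1) → X ≃ᵐ X) (f : Fin (M + 1) → X → ℂ) {y : Fin (M + 1) → ℝ}
    (hy : ∀ j, y j ∈ Set.Ico (1 / 2 : ℝ) (9 / 16)) (x : X) (n : ℤ) :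
    ∫ v in (n : ℝ)..((n : ℝ) + 1), phi T f (y, x) v = (1 / 16 : ℂ) * cub T f x n := by
  have hs := hy 0
  rw [intervalIntegral.integral_of_le (by linarith), ← integral_Ico_eq_integral_Ioc,
    setIntegral_congr_fun measurableSet_Ico (fun v hv => phi_eq T f hy x n hv),
    setIntegral_indicator measurableSet_Ico]
  have h1 : Set.Ico (n : ℝ) (n + 1) ∩ Set.Ico ((n : ℝ) + 9 / 16 - y 0) (n + 10 / 16 - y 0) =
      Set.Ico ((n : ℝ) + 9 / 16 - y 0) (n + 10 / 16 - y 0) := by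
    apply Set.inter_eq_self_of_subset_right
    intro v hv
    constructor
    · linarith [hv.1, hs.2]
    · linarith [hv.2, hs.1]
  rw [h1, setIntegral_const, Real.volume_real_Ico_of_le (by linarith)]
  have h2 : (n : ℝ) + 10 / 16 - y 0 - ((n : ℝ) + 9 / 16 - y 0) = 1 / 16 := by ring
  rw [h2, Complex.real_smul]
  push_cast
  ring

lemma phi_int {T : Fin (M + 1) → X ≃ᵐ X} (hT : ∀ j, MeasurePreserving (T j) μ μ) {f : Fin (M + 1) → X → ℂ}
    (hf : ∀ j, Measurable (f j)) {C : ℝ} (hC : ∀ j x, ‖f j x‖ ≤ C) {y : Fin (M + 1) → ℝ}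
    (hy : ∀ j, y j ∈ Set.Ico (1 / 2 : ℝ) (9 / 16)) (x : X) (N : ℕ) :
    ∫ v in (-(N : ℝ))..(N : ℝ), phi T f (y, x) v =
      (1 / 16 : ℂ) * ∑ k ∈ range N, (cub T f x (k : ℤ) + cub T f x (-(k : ℤ) - 1)) := by
  have hii := phi_ii hT hf hC (y, x)
  induction N with
  | zero => simp
  | succ N ih =>
    rw [sum_range_succ, mul_add, ← ih, mul_add, ← phi_piece T f hy x (N : ℤ), ← phi_piece T f hy x (-(N : ℤ) - 1)]
    push_cast
    rw [show (-(N : ℝ) - 1 + 1) = -(N : ℝ) by ring, show (-((N : ℝ) + 1)) = (-(N : ℝ) - 1) by ring,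
      ← intervalIntegral.integral_add_adjacent_intervals (hii (-(N : ℝ) - 1) (N : ℝ)) (hii (N : ℝ) ((N : ℝ) + 1)),
      ← intervalIntegral.integral_add_adjacent_intervals (hii (-(N : ℝ) - 1) (-(N : ℝ))) (hii (-(N : ℝ)) (N : ℝ))]
    ring

lemma cub_bd {T : Fin (M + 1) → X ≃ᵐ X} {f : Fin (M + 1) → X → ℂ} {C : ℝ} (hC : ∀ j x, ‖f j x‖ ≤ C) (x : X)
    (n : ℤ) : ‖cub T f x n‖ ≤ C ^ (M + 1) := prod_bd fun j => hC j _

lemma sum_shift (c : ℤ → ℂ) (N : ℕ) : ∑ n ∈ Icc 1 N, (c (n : ℤ) + c (-(n : ℤ))) =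
    ∑ k ∈ range N, (c (k : ℤ) + c (-(k : ℤ) - 1)) + (c (N : ℤ) - c 0) := by
  induction N with
  | zero => simp
  | succ N ih =>
    rw [sum_Icc_succ_top (by omega), ih, sum_range_succ]
    push_cast
    rw [show (-((N : ℤ) + 1)) = (-(N : ℤ) - 1) by ring]
    ring

/-- continuous convergence gives discrete convergence for the maps -/
lemma disc_of_cont {T : Fin (M + 1) → X ≃ᵐ X} (hT : ∀ j, MeasurePreserving (T j) μ μ) {f : Fin (M + 1) → X → ℂ}
    (hf : ∀ j, Measurable (f j)) {C : ℝ} (hC : ∀ j x, ‖f j x‖ ≤ C) {y : Fin (M + 1) → ℝ}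
    (hy : ∀ j, y j ∈ Set.Ico (1 / 2 : ℝ) (9 / 16)) (x : X) {L : ℂ}
    (hL : Tendsto (fun V : ℝ => (1 / (2 * (V : ℂ))) * ∫ v in (-V)..V, phi T f (y, x) v) atTop (𝓝 L)) :
    Tendsto (fun N : ℕ => (1 / (2 * (N : ℂ) + 1)) * ∑ n ∈ Icc (-(N : ℤ)) N, cub T f x n) atTop (𝓝 (16 * L)) := by
  rw [two_iff]
  have h1 := (hL.comp tendsto_natCast_atTop_atTop).const_mul (16 : ℂ)
  have h2 : Tendsto (fun N : ℕ => (1 / (2 * (N : ℂ))) * (cub T f x (N : ℤ) - cub T f x 0)) atTop (𝓝 0) := by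
    have h3 : Tendsto (fun N : ℕ => (C ^ (M + 1)) * (1 / (N : ℝ))) atTop (𝓝 0) := by
      have := (tendsto_one_div_atTop_nhds_zero_nat (𝕜 := ℝ)).const_mul (C ^ (M + 1))
      rwa [mul_zero] at this
    refine squeeze_zero_norm (fun N => ?_) h3
    rw [norm_mul, norm_div, norm_one, norm_mul, Complex.norm_natCast, Complex.norm_ofNat]
    have h4 : ‖cub T f x (N : ℤ) - cub T f x 0‖ ≤ 2 * C ^ (M + 1) := by
      refine (norm_sub_le _ _).trans ?_
      have := cub_bd (T := T) hC x (N : ℤ)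
      have := cub_bd (T := T) hC x 0
      linarith
    rcases Nat.eq_zero_or_pos N with rfl | hN
    · simp
    · have hN' : (0 : ℝ) < N := Nat.cast_pos.2 hN
      calc 1 / (2 * (N : ℝ)) * ‖cub T f x (N : ℤ) - cub T f x 0‖ ≤ 1 / (2 * (N : ℝ)) * (2 * C ^ (M + 1)) :=
            mul_le_mul_of_nonneg_left h4 (by positivity)
        _ = C ^ (M + 1) * (1 / (N : ℝ)) := by field_simp
  have h3 := h1.add h2
  rw [add_zero] at h3
  refine h3.congr fun N => ?_
  simp only [Function.comp_apply]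
  rw [Complex.ofReal_natCast, phi_int hT hf hC hy x N]
  unfold mid
  rw [sum_shift]
  ring

/-- the box of good base points -/
lemma box_pos : (lamp (M + 1)) (Set.univ.pi fun _ => Set.Ico (1 / 2 : ℝ) (9 / 16)) ≠ 0 := by
  unfold lamp
  rw [Measure.pi_pi, prod_ne_zero_iff]
  intro j _
  unfold lam
  rw [Measure.restrict_apply measurableSet_Ico]
  have : Set.Ico (1 / 2 : ℝ) (9 / 16) ∩ Set.Ico 0 1 = Set.Ico (1 / 2 : ℝ) (9 / 16) := by
    apply Set.inter_eq_self_of_subset_left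
    intro v hv
    exact ⟨by linarith [hv.1], by linarith [hv.2]⟩
  rw [this, Real.volume_Ico]
  simp only [ne_eq, ENNReal.ofReal_eq_zero, not_le]
  norm_num

/-- divergence for the maps gives divergence of the continuous averages of the flows -/
theorem amp_cont {T : Fin (M + 1) → X ≃ᵐ X} (hT : ∀ j, MeasurePreserving (T j) μ μ) {f : Fin (M + 1) → X → ℂ}
    (hf : ∀ j, Measurable (f j)) {C : ℝ} (hC : ∀ j x, ‖f j x‖ ≤ C)
    (hbad : ¬ ∀ᵐ x ∂μ, ∃ L : ℂ, Tendsto (fun N : ℕ => (1 / (2 * (N : ℂ) + 1)) *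
      ∑ n ∈ Icc (-(N : ℤ)) N, cub T f x n) atTop (𝓝 L)) :
    ¬ ∀ᵐ p ∂((lamp (M + 1)).prod μ), ∃ L : ℂ, Tendsto (fun V : ℝ => (1 / (2 * (V : ℂ))) *
      ∫ v in (-V)..V, ∏ j, Fn f j (ms T j v p)) atTop (𝓝 L) := by
  intro h2
  apply hbad
  have h3 := Measure.ae_ae_of_ae_prod h2
  obtain ⟨y, hy, hyx⟩ : ∃ y ∈ (Set.univ.pi fun _ => Set.Ico (1 / 2 : ℝ) (9 / 16) : Set (Fin (M + 1) → ℝ)),
      ∀ᵐ x ∂μ, ∃ L : ℂ, Tendsto (fun V : ℝ => (1 / (2 * (V : ℂ))) *
        ∫ v in (-V)..V, ∏ j, Fn f j (ms T j v (y, x))) atTop (𝓝 L) := by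
    by_contra hne
    apply box_pos (M := M)
    refine measure_mono_null (fun y hy => ?_) (ae_iff.1 h3)
    exact fun hgood => hne ⟨y, hy, hgood⟩
  filter_upwards [hyx] with x hx
  obtain ⟨L, hL⟩ := hx
  exact ⟨16 * L, disc_of_cont hT hf hC (fun j => hy j (Set.mem_univ _)) x hL⟩

end Pool.Agent.U946.AF
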