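import Pool.Agent.U587.ET.Susp

set_option autoImplicit false

/-! Two-sided averages of finitely many flows: discrete and continuous. -/

namespace Pool.Agent.U946.AF

open MeasureTheory Filter Finset
open Pool.Agent.Y957.MC (IsFlow cont_of_disc orb_good)
open Pool.Agent.U587.ET (GNull cmp bes_gnull)
open scoped Topology

universe u

variable {X : Type u} [MeasurableSpace X] {μ : Measure X} [IsProbabilityMeasure μ]

lemma sum_two {φ : ℤ → ℂ} (N : ℕ) :
    ∑ n ∈ Icc (-(N : ℤ)) N, φ n = φ 0 + ∑ n ∈ Icc 1 N, (φ (n : ℤ) + φ (-(n : ℤ))) := by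
  induction N with
  | zero => simp
  | succ N ih =>
    have hI : Icc (-((N + 1 : ℕ) : ℤ)) ((N + 1 : ℕ) : ℤ) =
        insert (-((N + 1 : ℕ) : ℤ)) (insert ((N + 1 : ℕ) : ℤ) (Icc (-(N : ℤ)) N)) := by
      ext z
      simp only [mem_Icc, mem_insert]
      push_cast
      omega
    rw [hI, sum_insert, sum_insert, ih, sum_Icc_succ_top (by omega)]
    · ring
    · simp only [mem_Icc]; push_cast; omega
    · simp only [mem_Icc, mem_insert]; push_cast; omega

lemma lim_one : Tendsto (fun N : ℕ => (1 / (2 * (N : ℂ) + 1))) atTop (nhds 0) := by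
  have : Tendsto (fun N : ℕ => (((1 / (2 * (N : ℝ) + 1)) : ℝ) : ℂ)) atTop (nhds ((0 : ℝ) : ℂ)) := by
    refine (Complex.continuous_ofReal.tendsto _).comp ?_
    refine Tendsto.div_atTop tendsto_const_nhds ?_
    exact tendsto_atTop_add_const_right _ _ (Tendsto.const_mul_atTop (by norm_num) tendsto_natCast_atTop_atTop)
  simpa using this

lemma two_ne (N : ℕ) : (2 * (N : ℂ) + 1) ≠ 0 := by
  have : ((2 * (N : ℝ) + 1 : ℝ) : ℂ) ≠ 0 := by
    exact_mod_cast (by positivity : (2 * (N : ℝ) + 1) ≠ 0)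
  simpa using this

lemma lim_inv : Tendsto (fun N : ℕ => (1 / (2 * (N : ℂ)))) atTop (nhds 0) := by
  have : Tendsto (fun N : ℕ => (((1 / (2 * (N : ℝ))) : ℝ) : ℂ)) atTop (nhds ((0 : ℝ) : ℂ)) := by
    refine (Complex.continuous_ofReal.tendsto _).comp ?_
    refine Tendsto.div_atTop tendsto_const_nhds ?_
    exact Tendsto.const_mul_atTop (by norm_num) tendsto_natCast_atTop_atTop
  simpa using this

/-- the mean of the two one-sided averages -/
noncomputable def mid (φ : ℤ → ℂ) (N : ℕ) : ℂ := (1 / (2 * (N : ℂ))) * ∑ n ∈ Icc 1 N, (φ (n : ℤ) + φ (-(n : ℤ)))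

lemma two_iff {φ : ℤ → ℂ} {L : ℂ} :
    Tendsto (fun N : ℕ => (1 / (2 * (N : ℂ) + 1)) * ∑ n ∈ Icc (-(N : ℤ)) N, φ n) atTop (𝓝 L) ↔
      Tendsto (mid φ) atTop (𝓝 L) := by
  constructor
  · intro h
    have h1 := h.sub (lim_one.const_mul (φ 0))
    have h2 := h1.add ((lim_inv.mul h1))
    rw [mul_zero, sub_zero, zero_mul, add_zero] at h2
    refine h2.congr' ?_
    filter_upwards [eventually_gt_atTop 0] with N hN
    have hN' : (N : ℂ) ≠ 0 := by exact_mod_cast hN.ne'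
    have h3 := two_ne N
    rw [sum_two]
    unfold mid
    field_simp
    ring
  · intro h
    have h1 := (lim_one.const_mul (φ 0)).add (h.sub (lim_one.mul h))
    rw [mul_zero, zero_mul, sub_zero, zero_add] at h1
    refine h1.congr' ?_
    filter_upwards [eventually_gt_atTop 0] with N hN
    have hN' : (N : ℂ) ≠ 0 := by exact_mod_cast hN.ne'
    have h3 := two_ne N
    rw [sum_two]
    unfold mid
    field_simp
    ring

/-- the mean of a function and its reflection -/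
noncomputable def sym (P : ℝ → ℂ) (v : ℝ) : ℂ := (P v + P (-v)) / 2

lemma int_sym {P : ℝ → ℂ} (hi : ∀ V W : ℝ, IntervalIntegrable P volume V W) (V : ℝ) :
    ∫ v in (0 : ℝ)..V, sym P v = (∫ v in (-V)..V, P v) / 2 := by
  have h1 : IntervalIntegrable (fun v => P (-v)) volume 0 V := by
    have := (IntervalIntegrable.iff_comp_neg (by simp)).1 (hi (-0) (-V))
    simpa using this
  unfold sym
  rw [intervalIntegral.integral_div, intervalIntegral.integral_add (hi 0 V) h1,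
    intervalIntegral.integral_comp_neg, neg_zero, add_comm,
    intervalIntegral.integral_add_adjacent_intervals (hi _ _) (hi _ _)]

lemma cav_eq {P : ℝ → ℂ} (hi : ∀ V W : ℝ, IntervalIntegrable P volume V W) (V : ℝ) :
    (1 / (V : ℂ)) * ∫ v in (0 : ℝ)..V, sym P v = (1 / (2 * (V : ℂ))) * ∫ v in (-V)..V, P v := by
  rw [int_sym hi]
  rw [show (1 / (2 * (V : ℂ))) = (1 / (V : ℂ)) * (1 / 2) by rw [one_div, mul_inv, one_div]; ring]
  ring

/-- one orbit -/
lemma orbit_iff {P : ℝ → ℂ} {C a : ℝ} (ha : 0 < a) (hC : 0 ≤ C) (hP : ∀ᵐ v : ℝ, ‖P v‖ ≤ C)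
    (hi : ∀ V W : ℝ, IntervalIntegrable P volume V W)
    (h1 : Tendsto (fun N => cmp (fun _ => 1) 1 P a N) atTop (𝓝 0))
    (h2 : Tendsto (fun N => cmp (fun _ => 1) 1 (fun v => P (-v)) a N) atTop (𝓝 0)) (L : ℂ) :
    Tendsto (fun N : ℕ => (1 / (2 * (N : ℂ) + 1)) * ∑ n ∈ Icc (-(N : ℤ)) N, P (a * n)) atTop (𝓝 L) ↔
      Tendsto (fun V : ℝ => (1 / (2 * (V : ℂ))) * ∫ v in (-V)..V, P v) atTop (𝓝 L) := by
  have hi' : ∀ V W : ℝ, IntervalIntegrable (fun v => P (-v)) volume V W := by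
    intro V W
    have := (IntervalIntegrable.iff_comp_neg (by simp)).1 (hi (-V) (-W))
    simpa using this
  have hs : ∀ V W : ℝ, IntervalIntegrable (sym P) volume V W := fun V W =>
    ((hi V W).add (hi' V W)).div_const 2
  have hP' : ∀ᵐ v : ℝ, ‖P (-v)‖ ≤ C :=
    (Measure.measurePreserving_neg (volume : Measure ℝ)).quasiMeasurePreserving.ae hP
  have hsb : ∀ᵐ v : ℝ, ‖sym P v‖ ≤ C := by
    filter_upwards [hP, hP'] with v hv hv'
    unfold sym
    rw [norm_div, Complex.norm_ofNat]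
    have := norm_add_le (P v) (P (-v))
    linarith
  -- the difference
  have h3 : Tendsto (fun N : ℕ => mid (fun n => P (a * n)) N -
      (1 / ((a * N : ℝ) : ℂ)) * ∫ v in (0 : ℝ)..(a * N), sym P v) atTop (𝓝 0) := by
    have h4 := (h1.add h2).div_const 2
    rw [add_zero, zero_div] at h4
    refine h4.congr fun N => ?_
    unfold Pool.Agent.U587.ET.cmp mid sym
    rw [intervalIntegral.integral_div, intervalIntegral.integral_add (hi _ _) (hi' _ _), sum_add_distrib]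
    have e1 : ∑ n ∈ Icc 1 N, P (a * ((-(n : ℤ) : ℤ) : ℝ)) = ∑ n ∈ Icc 1 N, P (-(a * (n : ℝ))) :=
      sum_congr rfl fun n _ => by
        congr 1
        push_cast
        ring
    have e2 : ∑ n ∈ Icc 1 N, P (a * ((n : ℤ) : ℝ)) = ∑ n ∈ Icc 1 N, P (a * (n : ℝ)) :=
      sum_congr rfl fun n _ => by
        congr 1
    rw [e1, e2]
    simp only [one_mul]
    rw [show (1 / (2 * (N : ℂ))) = (1 / (N : ℂ)) * (1 / 2) by rw [one_div, mul_inv, one_div]; ring]
    ring
  rw [two_iff]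
  have h5 : Tendsto (mid fun n => P (a * n)) atTop (𝓝 L) ↔
      Tendsto (fun N : ℕ => (1 / ((a * N : ℝ) : ℂ)) * ∫ v in (0 : ℝ)..(a * N), sym P v) atTop (𝓝 L) := by
    constructor
    · intro h
      have := h.sub h3
      rw [sub_zero] at this
      exact this.congr fun N => by ring
    · intro h
      have := h3.add h
      rw [zero_add] at this
      exact this.congr fun N => by ring
  rw [h5]
  have h6 : Tendsto (fun V : ℝ => (1 / (V : ℂ)) * ∫ v in (0 : ℝ)..V, sym P v) atTop (𝓝 L) ↔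
      Tendsto (fun V : ℝ => (1 / (2 * (V : ℂ))) * ∫ v in (-V)..V, P v) atTop (𝓝 L) := by
    constructor
    · exact fun h => h.congr fun V => cav_eq hi V
    · exact fun h => h.congr fun V => (cav_eq hi V).symm
  rw [← h6]
  constructor
  · intro h
    exact cont_of_disc ha hC hsb hs h
  · intro h
    have hlimN : Tendsto (fun N : ℕ => a * (N : ℝ)) atTop atTop :=
      tendsto_natCast_atTop_atTop.const_mul_atTop ha
    exact h.comp hlimN

lemma isFlow_neg {τ : ℝ → X → X} (h : IsFlow μ τ) : IsFlow μ (fun t => τ (-t)) := by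
  have := Pool.Agent.Y256.MC.isFlow_mul h (-1)
  simpa only [neg_one_mul] using this

/-- almost every orbit, all times off a small set -/
theorem compare {m : ℕ} {τ : Fin m → ℝ → X → X} (hτ : ∀ j, IsFlow μ (τ j)) {f : Fin m → X → ℂ}
    (hf : ∀ j, AEStronglyMeasurable (f j) μ) (hfb : ∀ j, ∃ C : ℝ, ∀ᵐ x ∂μ, ‖f j x‖ ≤ C) :
    ∃ D : Set ℝ, (∀ q : ℝ, 3 < q → GNull q D) ∧ ∀ a : ℝ, 0 < a → a ∉ D → ∀ᵐ x ∂μ, ∀ L : ℂ,
      (Tendsto (fun N : ℕ => (1 / (2 * (N : ℂ) + 1)) * ∑ n ∈ Icc (-(N : ℤ)) N, ∏ j, f j (τ j (a * n) x))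
        atTop (𝓝 L) ↔
      Tendsto (fun V : ℝ => (1 / (2 * (V : ℂ))) * ∫ v in (-V)..V, ∏ j, f j (τ j v x)) atTop (𝓝 L)) := by
  have hB : Pool.Agent.Y957.MC.Bes (fun _ => 1) := fun ε hε =>
    ⟨{0}, fun _ => 1, Eventually.of_forall fun N => by simp [hε.le]⟩
  have hmean : Tendsto (fun N : ℕ => (1 / (N : ℂ)) * ∑ n ∈ Icc 1 N, (fun _ : ℕ => (1 : ℂ)) n) atTop (nhds 1) := by
    refine tendsto_const_nhds.congr' ?_
    filter_upwards [eventually_gt_atTop 0] with N hN
    have hN' : (N : ℂ) ≠ 0 := by exact_mod_cast hN.ne'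
    simp [hN']
  have hτ' : ∀ j, IsFlow μ (fun t => τ j (-t)) := fun j => isFlow_neg (hτ j)
  refine ⟨{a | 0 < a ∧ ¬ ∀ᵐ x ∂μ, Tendsto (fun N => cmp (fun _ => 1) 1 (fun v => ∏ j, f j (τ j v x)) a N) atTop (𝓝 0)}
    ∪ {a | 0 < a ∧ ¬ ∀ᵐ x ∂μ,
      Tendsto (fun N => cmp (fun _ => 1) 1 (fun v => ∏ j, f j (τ j (-v) x)) a N) atTop (𝓝 0)}, ?_, ?_⟩
  · intro q hq
    have h1 := bes_gnull (μ := μ) hq hB hmean hτ hf hfb
    have h2 := bes_gnull (μ := μ) hq hB hmean hτ' hf hfb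
    have h3 := Pool.Agent.U587.ET.gnull_iUnion (q := q) (by linarith) (ι := Bool)
      (D := fun b => if b then _ else _) (fun b => by
        cases b
        · exact h2
        · exact h1)
    refine h3.mono ?_
    rintro a (ha | ha)
    · exact Set.mem_iUnion.2 ⟨true, ha⟩
    · exact Set.mem_iUnion.2 ⟨false, ha⟩
  · intro a ha haD
    have h1 : ∀ᵐ x ∂μ, Tendsto (fun N => cmp (fun _ => 1) 1 (fun v => ∏ j, f j (τ j v x)) a N) atTop (𝓝 0) := by
      by_contra h
      exact haD (Or.inl ⟨ha, h⟩)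
    have h2 : ∀ᵐ x ∂μ, Tendsto (fun N => cmp (fun _ => 1) 1 (fun v => ∏ j, f j (τ j (-v) x)) a N) atTop
        (𝓝 0) := by
      by_contra h
      exact haD (Or.inr ⟨ha, h⟩)
    filter_upwards [h1, h2, orb_good hτ hf hfb] with x hx1 hx2 hx3 L
    obtain ⟨⟨C, hC0, hC⟩, hi⟩ := hx3
    exact orbit_iff (P := fun v => ∏ j, f j (τ j v x)) ha hC0 hC hi hx1 hx2 L

end Pool.Agent.U946.AF
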