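import Pool.Agent.U946.AF.Amp

set_option autoImplicit false

/-! Powers of products of commuting permutations; automorphisms of a measure; flows as permutations. -/

namespace Pool.Agent.U946.AF

open MeasureTheory Filter Finset
open Pool.Agent.Y957.MC (IsFlow)

universe u

variable {X : Type u} [MeasurableSpace X] {μ : Measure X} [IsProbabilityMeasure μ] {m : ℕ}

lemma list_zpow {G : Type*} [Group G] (n : ℤ) (l : List G) (hl : ∀ a ∈ l, ∀ b ∈ l, Commute a b) :
    (l.map (· ^ n)).prod = l.prod ^ n := by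
  induction l with
  | nil => simp
  | cons a l ih =>
    have h1 := ih fun x hx y hy => hl x (List.mem_cons_of_mem _ hx) y (List.mem_cons_of_mem _ hy)
    have h2 : Commute a l.prod := Commute.list_prod_right l a fun y hy =>
      hl a List.mem_cons_self y (List.mem_cons_of_mem _ hy)
    rw [List.map_cons, List.prod_cons, h1, List.prod_cons, h2.mul_zpow]

/-- invertible, measurable in both directions, measure preserving -/
def IsAut (μ : Measure X) (σ : Equiv.Perm X) : Prop :=
  MeasurePreserving (fun x => σ x) μ μ ∧ MeasurePreserving (fun x => σ⁻¹ x) μ μ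

omit [IsProbabilityMeasure μ] in
lemma IsAut.one : IsAut μ (1 : Equiv.Perm X) := ⟨MeasurePreserving.id μ, MeasurePreserving.id μ⟩

omit [IsProbabilityMeasure μ] in
lemma IsAut.mul {σ ρ : Equiv.Perm X} (h1 : IsAut μ σ) (h2 : IsAut μ ρ) : IsAut μ (σ * ρ) :=
  ⟨h1.1.comp h2.1, by
    have h := h2.2.comp h1.2
    have he : (fun x => (σ * ρ)⁻¹ x) = (fun x => ρ⁻¹ x) ∘ fun x => σ⁻¹ x := by
      funext x
      rw [mul_inv_rev]
      rfl
    rw [he]
    exact h⟩

omit [IsProbabilityMeasure μ] in
lemma IsAut.inv {σ : Equiv.Perm X} (h1 : IsAut μ σ) : IsAut μ σ⁻¹ :=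
  ⟨h1.2, by
    simp only [inv_inv]
    exact h1.1⟩

/-- the group of automorphisms -/
def autGrp (μ : Measure X) : Subgroup (Equiv.Perm X) where
  carrier := {σ | IsAut μ σ}
  mul_mem' h1 h2 := h1.mul h2
  one_mem' := IsAut.one
  inv_mem' h := h.inv

/-- as a measurable equivalence -/
def toME {σ : Equiv.Perm X} (h : IsAut μ σ) : X ≃ᵐ X where
  toEquiv := σ
  measurable_toFun := h.1.measurable
  measurable_invFun := h.2.measurable

/-- the map at time `a` -/
def fperm {τ : ℝ → X → X} (h : IsFlow μ τ) (a : ℝ) : Equiv.Perm X where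
  toFun := τ a
  invFun := τ (-a)
  left_inv := fun x => by rw [← h.add, neg_add_cancel, h.zero]
  right_inv := fun x => by rw [← h.add, add_neg_cancel, h.zero]

omit [IsProbabilityMeasure μ] in
lemma fperm_aut {τ : ℝ → X → X} (h : IsFlow μ τ) (a : ℝ) : IsAut μ (fperm h a) := ⟨h.mp a, h.mp (-a)⟩

omit [IsProbabilityMeasure μ] in
lemma fperm_add {τ : ℝ → X → X} (h : IsFlow μ τ) (a b : ℝ) : fperm h (a + b) = fperm h a * fperm h b := by
  apply Equiv.ext
  intro x
  exact h.add a b x

omit [IsProbabilityMeasure μ] in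
lemma fperm_zpow {τ : ℝ → X → X} (h : IsFlow μ τ) (a : ℝ) (n : ℤ) : fperm h a ^ n = fperm h (a * n) := by
  have h0 : fperm h 0 = 1 := by
    apply Equiv.ext
    intro x
    exact h.zero x
  induction n using Int.induction_on with
  | zero => simp [h0]
  | succ k ih =>
    rw [zpow_add_one, ih, ← fperm_add]
    congr 1
    push_cast
    ring
  | pred k ih =>
    have h1 : (fperm h a)⁻¹ = fperm h (-a) := by
      rw [inv_eq_iff_mul_eq_one, ← fperm_add, add_neg_cancel, h0]
    rw [zpow_sub_one, ih, h1, ← fperm_add]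
    congr 1
    push_cast
    ring

end Pool.Agent.U946.AF
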