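import Pool.Agent.U946.AF.Cmp

set_option autoImplicit false

/-! The suspension of finitely many commuting maps: one circle for each of them. -/

namespace Pool.Agent.U946.AF

open MeasureTheory Filter Finset
open Pool.Agent.Y957.MC (IsFlow)
open Pool.Agent.U587.ET (lam sh ct sh_zero ct_zero sh_sh ct_add meas_sh meas_ct mp_sh meas_zpow mp_zpow fract_sh)
open scoped Topology

universe u

variable {X : Type u} [MeasurableSpace X] {μ : Measure X} [IsProbabilityMeasure μ] {m : ℕ}

/-- the measure of the base -/
noncomputable def lamp (m : ℕ) : Measure (Fin m → ℝ) := Measure.pi fun _ => lam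

instance : IsProbabilityMeasure (lamp m) := by
  unfold lamp
  infer_instance

/-- the flow number `j` -/
noncomputable def ms (T : Fin m → X ≃ᵐ X) (j : Fin m) (t : ℝ) (p : (Fin m → ℝ) × X) : (Fin m → ℝ) × X :=
  (fun i => sh (if i = j then t else 0) (p.1 i), (((T j).toEquiv : Equiv.Perm X) ^ ct t (p.1 j)) p.2)

lemma mp_base (j : Fin m) (t : ℝ) :
    MeasurePreserving (fun (y : Fin m → ℝ) i => sh (if i = j then t else 0) (y i)) (lamp m) (lamp m) :=
  measurePreserving_pi (fun _ => lam) (fun _ => lam) fun i => mp_sh (if i = j then t else 0)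

theorem ms_flow {T : Fin m → X ≃ᵐ X} (hT : ∀ j, MeasurePreserving (T j) μ μ) (j : Fin m) :
    IsFlow ((lamp m).prod μ) (ms T j) := by
  have hm : Measurable fun q : ℤ × X => (((T j).toEquiv : Equiv.Perm X) ^ q.1) q.2 :=
    measurable_from_prod_countable_right fun k => meas_zpow (T j) k
  refine ⟨?_, ?_, ?_, ?_⟩
  · unfold ms
    refine Measurable.prodMk (measurable_pi_iff.2 fun i => ?_) ?_
    · have h1 : Measurable fun q : ℝ × ((Fin m → ℝ) × X) => (if i = j then q.1 else 0 : ℝ) := by
        by_cases hi : i = j
        · simp only [if_pos hi]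
          exact measurable_fst
        · simp only [if_neg hi]
          exact measurable_const
      exact meas_sh.comp (h1.prodMk ((measurable_pi_apply i).comp (measurable_fst.comp measurable_snd)))
    · exact hm.comp ((meas_ct.comp (measurable_fst.prodMk
        ((measurable_pi_apply j).comp (measurable_fst.comp measurable_snd)))).prodMk
        (measurable_snd.comp measurable_snd))
  · rintro ⟨y, x⟩
    unfold ms
    simp only [ite_self, sh_zero, ct_zero, zpow_zero]
    rfl
  · rintro t u ⟨y, x⟩
    unfold ms
    refine Prod.ext ?_ ?_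
    · funext i
      simp only
      rw [sh_sh]
      congr 1
      by_cases hi : i = j
      · simp only [hi, if_true]
      · simp only [hi, if_false, add_zero]
    · simp only [if_true]
      rw [ct_add, zpow_add]
      rfl
  · intro t
    have h := (mp_base j t).skew_product (μc := μ) (μd := μ)
      (g := fun y x => (((T j).toEquiv : Equiv.Perm X) ^ ct t (y j)) x) ?_ ?_
    · exact h
    · exact hm.comp ((meas_ct.comp (measurable_const.prodMk ((measurable_pi_apply j).comp measurable_fst))).prodMk
        measurable_snd)
    · exact ae_of_all _ fun y => (mp_zpow (hT j) _).map_eq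

omit [MeasurableSpace X] in
lemma ct_other {i j : Fin m} (hij : i ≠ j) (t : ℝ) (y : Fin m → ℝ) :
    sh (if i = j then t else 0) (y i) = y i := by
  rw [if_neg hij, sh_zero]

theorem ms_comm {T : Fin m → X ≃ᵐ X} (hc : ∀ i j x, T i (T j x) = T j (T i x)) (i j : Fin m) (s t : ℝ)
    (p : (Fin m → ℝ) × X) : ms T i s (ms T j t p) = ms T j t (ms T i s p) := by
  obtain ⟨y, x⟩ := p
  by_cases hij : i = j
  · subst hij
    unfold ms
    refine Prod.ext ?_ ?_
    · funext k
      simp only
      rw [sh_sh, sh_sh, add_comm]
    · simp only [if_true]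
      rw [← Equiv.Perm.mul_apply, ← Equiv.Perm.mul_apply, ← zpow_add, ← zpow_add, ← ct_add, ← ct_add, add_comm]
  · have hcom : Commute ((T i).toEquiv : Equiv.Perm X) ((T j).toEquiv : Equiv.Perm X) := by
      apply Equiv.ext
      intro z
      exact hc i j z
    unfold ms
    refine Prod.ext ?_ ?_
    · funext k
      simp only
      rw [sh_sh, sh_sh, add_comm]
    · simp only
      rw [if_neg hij, if_neg (Ne.symm hij), sh_zero, sh_zero, ← Equiv.Perm.mul_apply, ← Equiv.Perm.mul_apply]
      rw [((hcom.zpow_zpow (ct s (y i)) (ct t (y j))).eq)]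

end Pool.Agent.U946.AF
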