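import Pool.Agent.U946.AF.Lin

set_option autoImplicit false

/-! Integer linear combinations of commuting flows; one exceptional set for all of them. -/

namespace Pool.Agent.U946.AF

open MeasureTheory Filter Finset
open Pool.Agent.Y957.MC (IsFlow orb_good)
open Pool.Agent.U587.ET (GNull cmp uniform_bes)
open scoped Topology

universe u

variable {X : Type u} [MeasurableSpace X] {μ : Measure X} [IsProbabilityMeasure μ]

/-- the composition of the flows of a list at the time `v` -/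
def cf (l : List (ℝ → X → X)) (v : ℝ) (x : X) : X := l.foldr (fun τ y => τ v y) x

omit [MeasurableSpace X] in
lemma cf_cons (τ : ℝ → X → X) (l : List (ℝ → X → X)) (v : ℝ) (x : X) : cf (τ :: l) v x = τ v (cf l v x) := rfl

omit [MeasurableSpace X] in
lemma cf_comm {σ : ℝ → X → X} {l : List (ℝ → X → X)}
    (h : ∀ τ ∈ l, ∀ s t x, σ s (τ t x) = τ t (σ s x)) (s t : ℝ) (x : X) : σ s (cf l t x) = cf l t (σ s x) := by
  induction l with
  | nil => rfl
  | cons τ l ih =>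
    rw [cf_cons, cf_cons, h τ List.mem_cons_self, ih fun ρ hρ => h ρ (List.mem_cons_of_mem _ hρ)]

omit [IsProbabilityMeasure μ] in
lemma cf_flow {l : List (ℝ → X → X)} (hl : ∀ τ ∈ l, IsFlow μ τ)
    (hc : ∀ τ ∈ l, ∀ σ ∈ l, ∀ s t x, τ s (σ t x) = σ t (τ s x)) : IsFlow μ (cf l) := by
  induction l with
  | nil =>
    refine ⟨measurable_snd, fun x => rfl, fun s t x => rfl, fun t => MeasurePreserving.id μ⟩
  | cons τ l ih =>
    have h1 := ih (fun σ hσ => hl σ (List.mem_cons_of_mem _ hσ))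
      fun σ hσ ρ hρ => hc σ (List.mem_cons_of_mem _ hσ) ρ (List.mem_cons_of_mem _ hρ)
    have h2 := hl τ List.mem_cons_self
    have h3 : ∀ (s t : ℝ) (x : X), τ s (cf l t x) = cf l t (τ s x) := fun s t x =>
      cf_comm (fun ρ hρ => hc τ List.mem_cons_self ρ (List.mem_cons_of_mem _ hρ)) s t x
    refine ⟨?_, ?_, ?_, ?_⟩
    · exact h2.meas.comp (measurable_fst.prodMk h1.meas)
    · intro x
      rw [cf_cons, h1.zero, h2.zero]
    · intro s t x
      rw [cf_cons, cf_cons, cf_cons, h1.add, h2.add, h3 t s]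
    · intro t
      exact (h2.mp t).comp (h1.mp t)

/-- the flow `v ↦ τ_1(c_1 v) ⋯ τ_d(c_d v)` -/
def lf {d : ℕ} (τ : Fin d → ℝ → X → X) (c : Fin d → ℤ) : ℝ → X → X :=
  cf (List.ofFn fun i v => τ i (c i * v))

omit [IsProbabilityMeasure μ] in
lemma lf_flow {d : ℕ} {τ : Fin d → ℝ → X → X} (hτ : ∀ i, IsFlow μ (τ i))
    (hc : ∀ i j s t x, τ i s (τ j t x) = τ j t (τ i s x)) (c : Fin d → ℤ) : IsFlow μ (lf τ c) := by
  refine cf_flow ?_ ?_
  · intro σ hσ
    obtain ⟨i, rfl⟩ := (List.mem_ofFn' _ _).1 hσ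
    exact Pool.Agent.Y256.MC.isFlow_mul (hτ i) (c i)
  · intro σ hσ ρ hρ s t x
    obtain ⟨i, rfl⟩ := (List.mem_ofFn' _ _).1 hσ
    obtain ⟨j, rfl⟩ := (List.mem_ofFn' _ _).1 hρ
    exact hc i j _ _ x

omit [MeasurableSpace X] in
lemma foldr_ofFn {d : ℕ} (g : Fin d → ℝ → X → X) (v : ℝ) (x : X) :
    cf (List.ofFn g) v x = (List.ofFn fun i => g i v).foldr (fun h y => h y) x := by
  induction d with
  | zero => rfl
  | succ d ih =>
    rw [List.ofFn_succ, cf_cons, ih, List.ofFn_succ, List.foldr_cons]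

omit [MeasurableSpace X] in
lemma lf_eq {d : ℕ} (τ : Fin d → ℝ → X → X) (c : Fin d → ℤ) (v : ℝ) (x : X) :
    lf τ c v x = (List.ofFn fun i => τ i (c i * v)).foldr (fun h y => h y) x := foldr_ofFn _ _ _

omit [MeasurableSpace X] in
lemma lf_neg {d : ℕ} (τ : Fin d → ℝ → X → X) (c : Fin d → ℤ) (v : ℝ) (x : X) : lf τ (-c) v x = lf τ c (-v) x := by
  rw [lf_eq, lf_eq]
  congr 2
  funext i
  congr 1
  rw [Pi.neg_apply]
  push_cast
  ring

/-- one exceptional set for all integer matrices and all functions -/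
theorem uniform [IsSeparable μ] {d : ℕ} {τ : Fin d → ℝ → X → X} (hτ : ∀ i, IsFlow μ (τ i))
    (hc : ∀ i j s t x, τ i s (τ j t x) = τ j t (τ i s x)) :
    ∃ D : Set ℝ, (∀ q : ℝ, 3 < q → GNull q D) ∧ ∀ a : ℝ, 0 < a → a ∉ D → ∀ (m : ℕ) (c : Fin d → Fin m → ℤ)
      (f : Fin m → X → ℂ), (∀ j, AEStronglyMeasurable (f j) μ) → (∀ j, ∃ C : ℝ, ∀ᵐ x ∂μ, ‖f j x‖ ≤ C) →
      ∀ᵐ x ∂μ, ∀ L : ℂ,
        (Tendsto (fun N : ℕ => (1 / (2 * (N : ℂ) + 1)) * ∑ n ∈ Icc (-(N : ℤ)) N,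
          ∏ j, f j (lf τ (fun i => c i j) (a * n) x)) atTop (𝓝 L) ↔
        Tendsto (fun V : ℝ => (1 / (2 * (V : ℂ))) * ∫ v in (-V)..V, ∏ j, f j (lf τ (fun i => c i j) v x))
          atTop (𝓝 L)) := by
  have hB : Pool.Agent.Y957.MC.Bes (fun _ => 1) := fun ε hε =>
    ⟨{0}, fun _ => 1, Eventually.of_forall fun N => by simp [hε.le]⟩
  have hmean : Tendsto (fun N : ℕ => (1 / (N : ℂ)) * ∑ n ∈ Icc 1 N, (fun _ : ℕ => (1 : ℂ)) n) atTop (nhds 1) := by
    refine tendsto_const_nhds.congr' ?_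
    filter_upwards [eventually_gt_atTop 0] with N hN
    have hN' : (N : ℂ) ≠ 0 := by exact_mod_cast hN.ne'
    simp [hN']
  obtain ⟨D, hD, h⟩ := uniform_bes (μ := μ) (ι := Fin d → ℤ) (τ := fun c => lf τ c)
    (fun c => lf_flow hτ hc c) (B := fun _ _ => 1) (b := fun _ => 1) (fun _ => hB) (fun _ => hmean)
  refine ⟨D, hD, fun a ha haD m c f hf hfb => ?_⟩
  have h1 := h a ha haD m (fun j i => c i j) f hf hfb 0
  have h2 := h a ha haD m (fun j => -(fun i => c i j)) f hf hfb 0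
  simp only [lf_neg] at h2
  filter_upwards [h1, h2, orb_good (fun j => lf_flow hτ hc (fun i => c i j)) hf hfb] with x hx1 hx2 hx3 L
  obtain ⟨⟨C, hC0, hC⟩, hi⟩ := hx3
  exact orbit_iff (P := fun v => ∏ j, f j (lf τ (fun i => c i j) v x)) ha hC0 hC hi hx1 hx2 L

end Pool.Agent.U946.AF
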